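import Pool.Agent.Helper38.WY.Goals1

/-!
Project WY (MP_fc6b1e_nt), packet WY-Y_FRE: if `α` is locally a `p`-th power then the extensions of `σ` to
`F(α^(1/p))` have the same order as `σ`.
-/

set_option autoImplicit false

namespace Pool.Agent.Helper74.WY

open NumberField Polynomial Module IsDedekindDomain
open Pool.Agent.Helper42.PW Pool.Agent.Helper38.WY

/-- Finite products of elements which are at least `l`. -/
theorem pow_card_le_prod {Γ : Type*} [LinearOrderedCommGroupWithZero Γ] {ι : Type*} (s : Finset ι) (f : ι → Γ)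
    (l : Γ) (h : ∀ i ∈ s, l ≤ f i) : l ^ s.card ≤ ∏ i ∈ s, f i := by
  classical
  induction s using Finset.induction_on with
  | empty => simp
  | insert i s hi ih =>
    rw [Finset.card_insert_of_notMem hi, Finset.prod_insert hi, pow_succ']
    exact mul_le_mul' (h i (Finset.mem_insert_self i s)) (ih fun j hj => h j (Finset.mem_insert_of_mem hj))

theorem y_fre : Pool.Agent.Helper38.WY.Y_FRE := by
  intro p hp F _ _ ε α hε hα W hWp σ t c hσ hσε hord ht hσα hPw
  have hp1 : 1 < p := hp.out.one_lt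
  have hp0 : p ≠ 0 := hp.out.ne_zero
  set V := W.valuation F with hV
  have hpF : (p : F) ≠ 0 := Nat.cast_ne_zero.2 hp0
  have hVp0 : V (p : F) ≠ 0 := (Valuation.ne_zero_iff V).2 hpF
  have hVε : V ε = 1 := by
    have h1 : V ε ^ p = 1 := by rw [← map_pow, hε.pow_eq_one, map_one]
    rcases pow_eq_one_iff.1 h1 with h | h
    · exact h
    · exact absurd h hp0
  have hVεi : ∀ i : ℕ, V (ε ^ i) = 1 := fun i => by rw [map_pow, hVε, one_pow]
  -- `V (ε^i - 1) ≤ V (ε - 1)` for elements of valuation one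
  have hle : ∀ (x : F), V x = 1 → ∀ i : ℕ, V (x ^ i - 1) ≤ V (x - 1) := by
    intro x hx i
    induction i with
    | zero => simp
    | succ i ih =>
      have h1 : x ^ (i + 1) - 1 = x * (x ^ i - 1) + (x - 1) := by ring
      rw [h1]
      refine (V.map_add _ _).trans (max_le ?_ le_rfl)
      rw [map_mul, hx, one_mul]
      exact ih
  set l := V (ε - 1) with hl
  have heq : ∀ i : ℕ, ¬ p ∣ i → V (ε ^ i - 1) = l := by
    intro i hi
    refine le_antisymm (hle ε hVε i) ?_
    have hcop : Nat.Coprime i p := ((Nat.Prime.coprime_iff_not_dvd hp.out).2 hi).symm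
    obtain ⟨k, -, hk⟩ := Nat.exists_mul_mod_eq_one_of_coprime hcop hp1
    have h1 : (ε ^ i) ^ k = ε := by
      rw [← pow_mul, ← Nat.div_add_mod (i * k) p, hk, pow_add, pow_mul, hε.pow_eq_one, one_pow, one_mul, pow_one]
    have h2 := hle (ε ^ i) (hVεi i) k
    rw [h1] at h2
    exact h2
  -- `V p = l^(p-1)`
  have hVp : V (p : F) = l ^ (p - 1) := by
    obtain ⟨q, rfl⟩ : ∃ q, p = q + 1 := ⟨p - 1, by omega⟩
    have h1 := hε.prod_one_sub_pow_eq_order
    have h2 : V (((q + 1 : ℕ) : F)) = ∏ k ∈ Finset.range q, V (1 - ε ^ (k + 1)) := by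
      rw [← map_prod, h1]
      push_cast
      rfl
    rw [h2, Nat.add_sub_cancel]
    have h3 : ∀ k ∈ Finset.range q, V (1 - ε ^ (k + 1)) = l := by
      intro k hk
      rw [Valuation.map_sub_swap]
      apply heq
      intro h4
      have := Nat.le_of_dvd (by omega) h4
      have := Finset.mem_range.1 hk
      omega
    rw [Finset.prod_congr rfl h3, Finset.prod_const, Finset.card_range]
  have hl1 : l < 1 := by
    by_contra h
    push Not at h
    have : 1 ≤ l ^ (p - 1) := one_le_pow₀ h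
    rw [← hVp] at this
    exact absurd hWp (not_lt.2 this)
  have hlp : V (p : F) ≤ l := by
    rw [hVp]
    calc l ^ (p - 1) ≤ l ^ 1 := pow_le_pow_right_of_le_one' hl1.le (by omega)
      _ = l := pow_one l
  -- the local `p`-th power
  obtain ⟨y, hy1, hy2⟩ := hPw
  have hy0 : y ≠ 0 := by
    rintro rfl
    rw [zero_pow hp0, mul_zero, zero_sub, Valuation.map_neg, map_one] at hy1
    exact lt_irrefl _ hy1
  set a := α * y ^ p with ha
  have ha0 : a ≠ 0 := mul_ne_zero hα (pow_ne_zero _ hy0)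
  have hVa : V a = 1 := by
    have h1 : a = (a - 1) + 1 := by ring
    rw [h1]
    rw [Valuation.map_add_eq_of_lt_right V (x := a - 1) (y := 1) (by rw [map_one]; exact hy1)]
    exact map_one V
  have hσy0 : σ y ≠ 0 := (map_ne_zero_iff σ σ.injective).2 hy0
  set d := c * (σ y / y) with hd
  have hdp : d ^ p = σ a / a := by
    rw [hd, ha, mul_pow, div_pow, map_mul, map_pow, hσα]
    field_simp
  have hVd : V (d ^ p - 1) ≤ V (p : F) ^ 3 := by
    have h1 : d ^ p - 1 = ((σ (a - 1)) - (a - 1)) / a := by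
      rw [hdp, map_sub, map_one]
      field_simp
      ring
    rw [h1, map_div₀, hVa, div_one]
    refine (Valuation.map_sub V _ _).trans (max_le ?_ hy2)
    rw [hσ]
    exact hy2
  -- a factor
  obtain ⟨i, hi⟩ : ∃ i : ℕ, V (d - ε ^ i) < l := by
    by_contra hcon
    push Not at hcon
    have h1 : d ^ p - 1 = ∏ z ∈ nthRootsFinset p (1 : F), (d - z) := by
      have h2 := congrArg (Polynomial.eval d) (X_pow_sub_one_eq_prod hp.out.pos hε)
      rw [eval_sub, eval_pow, eval_X, eval_one, eval_prod] at h2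
      rw [h2]
      exact Finset.prod_congr rfl fun z _ => by rw [eval_sub, eval_X, eval_C]
    have h3 : l ^ p ≤ V (d ^ p - 1) := by
      rw [h1, map_prod]
      have h4 := pow_card_le_prod (nthRootsFinset p (1 : F)) (fun z => V (d - z)) l (by
        intro z hz
        rw [mem_nthRootsFinset hp.out.pos] at hz
        obtain ⟨i, -, rfl⟩ := hε.eq_pow_of_pow_eq_one hz
        exact hcon i)
      rwa [hε.card_nthRootsFinset] at h4
    have h5 : V (p : F) ^ 2 ≤ V (p : F) ^ 3 := by
      calc V (p : F) ^ 2 = V (p : F) * V (p : F) := pow_two _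
        _ ≤ l * l ^ (p - 1) := by
          rw [← hVp]
          exact mul_le_mul' hlp le_rfl
        _ = l ^ p := by rw [← pow_succ', Nat.sub_add_cancel hp1.le]
        _ ≤ V (d ^ p - 1) := h3
        _ ≤ _ := hVd
    have h6 : V (p : F) ^ 3 < V (p : F) ^ 2 := by
      have h7 : 0 < V (p : F) ^ 2 := pow_pos (zero_lt_iff.2 hVp0) 2
      calc V (p : F) ^ 3 = V (p : F) ^ 2 * V (p : F) := pow_succ _ 2
        _ < V (p : F) ^ 2 * 1 := (mul_lt_mul_iff_right₀ h7).2 hWp
        _ = _ := mul_one _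
    exact absurd h5 (not_le.2 h6)
  have hσj : ∀ (j : ℕ) (x : F), V ((σ ^ j) x) = V x := by
    intro j
    induction j with
    | zero => intro x; rw [pow_zero]; rfl
    | succ j ih =>
      intro x
      rw [pow_succ']
      show V (σ ((σ ^ j) x)) = V x
      rw [hσ, ih]
  have hσjε : ∀ j : ℕ, (σ ^ j) ε = ε := by
    intro j
    induction j with
    | zero => rw [pow_zero]; rfl
    | succ j ih =>
      rw [pow_succ']
      show σ ((σ ^ j) ε) = ε
      rw [ih, hσε]
  have hj : ∀ j : ℕ, V ((σ ^ j) d - ε ^ i) < l := by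
    intro j
    have h1 : (σ ^ j) d - ε ^ i = (σ ^ j) (d - ε ^ i) := by
      rw [map_sub, map_pow, hσjε]
    rw [h1, hσj]
    exact hi
  have hj1 : ∀ j : ℕ, V ((σ ^ j) d) ≤ 1 := by
    intro j
    have h1 : (σ ^ j) d = ((σ ^ j) d - ε ^ i) + ε ^ i := by ring
    rw [h1]
    exact (V.map_add _ _).trans (max_le ((hj j).le.trans hl1.le) (hVεi i).le)
  have hprod : ∀ N : ℕ, V (∏ j ∈ Finset.range N, (σ ^ j) d - (ε ^ i) ^ N) < l := by
    have hl0 : 0 < l := lt_of_lt_of_le (zero_lt_iff.2 hVp0) hlp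
    intro N
    induction N with
    | zero => simpa using hl0
    | succ N ih =>
      have h1 : ∏ j ∈ Finset.range (N + 1), (σ ^ j) d - (ε ^ i) ^ (N + 1) =
          (∏ j ∈ Finset.range N, (σ ^ j) d - (ε ^ i) ^ N) * (σ ^ N) d + (ε ^ i) ^ N * ((σ ^ N) d - ε ^ i) := by
        rw [Finset.prod_range_succ]
        ring
      rw [h1]
      refine lt_of_le_of_lt (V.map_add _ _) (max_lt ?_ ?_)
      · rw [map_mul]
        calc V (∏ j ∈ Finset.range N, (σ ^ j) d - (ε ^ i) ^ N) * V ((σ ^ N) d)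
            ≤ V (∏ j ∈ Finset.range N, (σ ^ j) d - (ε ^ i) ^ N) * 1 := mul_le_mul' le_rfl (hj1 N)
          _ = _ := mul_one _
          _ < l := ih
      · rw [map_mul, map_pow, hVεi, one_pow, one_mul]
        exact hj N
  -- telescoping
  have hσN : σ ^ (p ^ t) = 1 := by rw [← hord]; exact pow_orderOf_eq_one σ
  have htel : ∀ x : F, x ≠ 0 → ∏ j ∈ Finset.range (p ^ t), (σ ^ j) (σ x / x) = 1 := by
    intro x hx
    have hne : ∀ j : ℕ, (σ ^ j) x ≠ 0 := fun j => (map_ne_zero_iff _ (σ ^ j).injective).2 hx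
    have h1 : ∀ j ∈ Finset.range (p ^ t), (σ ^ j) (σ x / x) = (σ ^ (j + 1)) x / (σ ^ j) x := by
      intro j _
      rw [map_div₀]
      congr 1
    rw [Finset.prod_congr rfl h1]
    have h2 : ∀ N : ℕ, ∏ j ∈ Finset.range N, (σ ^ (j + 1)) x / (σ ^ j) x = (σ ^ N) x / x := by
      intro N
      induction N with
      | zero =>
        rw [Finset.prod_range_zero, pow_zero]
        exact (div_self hx).symm
      | succ N ih =>
        rw [Finset.prod_range_succ, ih, mul_comm, div_mul_div_cancel₀ (hne N)]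
    rw [h2, hσN]
    exact div_self hx
  have hζ : ∏ j ∈ Finset.range (p ^ t), (σ ^ j) d = ∏ j ∈ Finset.range (p ^ t), (σ ^ j) c := by
    have h1 : ∀ j ∈ Finset.range (p ^ t), (σ ^ j) d = (σ ^ j) c * (σ ^ j) (σ y / y) := fun j _ => by
      rw [hd, map_mul]
    rw [Finset.prod_congr rfl h1, Finset.prod_mul_distrib, htel y hy0, mul_one]
  have hζp : (∏ j ∈ Finset.range (p ^ t), (σ ^ j) c) ^ p = 1 := by
    rw [← Finset.prod_pow, ← htel α hα]
    refine Finset.prod_congr rfl fun j _ => ?_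
    rw [← map_pow, hσα, mul_div_cancel_left₀ _ hα]
  obtain ⟨m, -, hm⟩ := hε.eq_pow_of_pow_eq_one hζp
  have hfin := hprod (p ^ t)
  have hεN : (ε ^ i) ^ (p ^ t) = 1 := by
    obtain ⟨s, rfl⟩ : ∃ s, t = s + 1 := ⟨t - 1, by omega⟩
    rw [← pow_mul, mul_comm, pow_succ', mul_assoc, pow_mul, hε.pow_eq_one, one_pow]
  rw [hεN, hζ, ← hm] at hfin
  rw [← hm]
  by_cases hpm : p ∣ m
  · exact (hε.pow_eq_one_iff_dvd m).2 hpm
  · exact absurd hfin (not_lt.2 (heq m hpm).ge)

end Pool.Agent.Helper74.WY
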