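import Pool.Agent.Helper38.WY.Goals6
import Pool.Agent.Helper38.FD.Split
import Pool.Agent.Helper13.RL.GOO2
import Pool.Agent.Helper13.RL.GOO3
import Pool.Agent.Helper48.PPB.GL1A

/-! Project WY: O_GL, the criterion for `χ₀ ≡ ω`. -/

set_option autoImplicit false

namespace Pool.Agent.Helper74.WY

open NumberField Polynomial Module IsDedekindDomain Pool.Agent.Helper51.SigLeo
open Pool.Agent.Helper51.RP Pool.Agent.Helper42.RD Pool.Agent.Helper11.LE Pool.Agent.Helper11.PP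
open Pool.Agent.Helper38.FD
open Pool.Agent.Helper42.PW
open Pool.Agent.Helper38.WY
open Pool.Agent.Helper48.PPB (finrank_sup_cut)
open Pool.Agent.Helper13.RL (exists_gK)

/-- The character `ψ₁` is trivial on the automorphisms which fix `M₂` and `s`. -/
theorem triv_of_fix {K Ω k : Type} [Field K] [Field Ω] [Algebra K Ω] [NormedField k] {p : ℕ}
    (hp : p.Prime) {M₂ : IntermediateField K Ω} (ψ₁ : Chr K Ω k) {ε s : Ω}
    (hε : IsPrimitiveRoot ε p) (hεM : ε ∈ M₂) (hs0 : s ≠ 0)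
    (h1 : ∀ g : Ω ≃ₐ[K] Ω, (∀ x ∈ M₂, g x = x) → ψ₁ g ^ p = 1)
    (hgen : ∀ g : Ω ≃ₐ[K] Ω, (∀ x ∈ M₂, g x = x) → ψ₁ g = 1 → g s = s)
    {gK : Ω ≃ₐ[K] Ω} (hgM : ∀ x ∈ M₂, gK x = x) (hgs : gK s = ε * s)
    (g : Ω ≃ₐ[K] Ω) (hg : ∀ x ∈ M₂, g x = x) (hgss : g s = s) : ψ₁ g = 1 := by
  have hne : NeZero p := ⟨hp.ne_zero⟩
  have hε1 : ε ≠ 1 := hε.ne_one hp.one_lt
  have hK1 : ψ₁ gK ≠ 1 := by
    intro e
    have e1 := hgen gK hgM e
    rw [hgs] at e1
    have e2 : (ε - 1) * s = 0 := by rw [sub_mul, e1, one_mul, sub_self]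
    rcases mul_eq_zero.1 e2 with h | h
    · exact hε1 (sub_eq_zero.1 h)
    · exact hs0 h
  have hgp : IsPrimitiveRoot (ψ₁ gK) p := by
    have e := orderOf_eq_prime (h1 gK hgM) hK1 (hp := ⟨hp⟩)
    rw [← e]
    exact IsPrimitiveRoot.orderOf _
  obtain ⟨j, hj, hj1⟩ : ∃ j < p, ψ₁ gK ^ j = ψ₁ g :=
    hgp.eq_pow_of_mem_rootsOfUnity ((mem_rootsOfUnity _ _).2 (h1 g hg))
  have pM : ∀ (j : ℕ), ∀ x ∈ M₂, (gK ^ j) x = x := by
    intro j
    induction j with
    | zero => intro x _; rfl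
    | succ j ih => intro x hx; rw [pow_succ, AlgEquiv.mul_apply, hgM x hx, ih x hx]
  have pS : ∀ (j : ℕ), (gK ^ j) s = ε ^ j * s := by
    intro j
    induction j with
    | zero => rw [pow_zero, pow_zero, one_mul]; rfl
    | succ j ih =>
      rw [pow_succ, AlgEquiv.mul_apply, hgs, map_mul, ih, pM j ε hεM, ← mul_assoc, ← pow_succ']
  -- `g⁻¹ * gK ^ j`
  have h3 : (g⁻¹ * gK ^ j) s = s := by
    apply hgen
    · intro x hx
      rw [AlgEquiv.mul_apply, pM j x hx]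
      show g.symm x = x
      rw [AlgEquiv.symm_apply_eq, hg x hx]
    · rw [map_mul, map_inv, map_pow, hj1, inv_mul_cancel]
  have h4 : ε ^ j * s = s := by
    rw [AlgEquiv.mul_apply, pS] at h3
    have h5 : ε ^ j * s = g s := by
      have h6 : g.symm (ε ^ j * s) = s := h3
      rw [AlgEquiv.symm_apply_eq] at h6
      exact h6
    rw [h5, hgss]
  have h5 : ε ^ j = 1 := by
    have e2 : (ε ^ j - 1) * s = 0 := by rw [sub_mul, h4, one_mul, sub_self]
    rcases mul_eq_zero.1 e2 with h | h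
    · exact sub_eq_zero.1 h
    · exact absurd h hs0
  have h6 : j = 0 := Nat.eq_zero_of_dvd_of_lt ((hε.pow_eq_one_iff_dvd j).1 h5) hj
  rw [← hj1, h6, pow_zero]

/-- **O_GL**. -/
theorem o_gl (hco : Pool.Agent.Helper38.WY.O_CO) : Pool.Agent.Helper38.WY.O_GL := by
  intro p hpf hp2 K _ _ ιinf ιp Lg S hcl M J M₂ _ _ _ _ _ _ hMM₂ hM₂ hcop hJ χM hχM
    δ i hδ hδi χ₀ ψ₁ hχ₀ hψl hcJ hgE ε α hε hε₀ hOm hnp hgen hSel
  have hp := hpf.out
  have hfM : FiniteDimensional K M := FiniteDimensional.right ℚ K M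
  have hfJ : FiniteDimensional K J := FiniteDimensional.right ℚ K J
  have hfM₂ : FiniteDimensional K M₂ := FiniteDimensional.right ℚ K M₂
  have hgΩ : IsGalois K (AlgebraicClosure K) := inferInstance
  have hJM₂ : J ≤ M₂ := by rw [hM₂]; exact le_sup_right
  -- the element
  obtain ⟨s, hs⟩ := IsAlgClosed.exists_pow_nat_eq (((α : M₂) : AlgebraicClosure K)) hp.pos
  have hsM₂ : s ∉ M₂ := by
    intro hmem
    have e1 : (⟨_, hmem⟩ : M₂) ^ p = (α : M₂) := Subtype.ext hs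
    have e2 : (⟨_, hmem⟩ : M₂) ≠ 0 := by
      intro h0
      rw [h0, zero_pow hp.ne_zero] at e1
      exact α.ne_zero e1.symm
    exact hnp ⟨Units.mk0 _ e2, Units.ext (by
      rw [Units.val_pow_eq_pow_val, Units.val_mk0, e1])⟩
  have hgen' : ∀ g : AlgebraicClosure K ≃ₐ[K] AlgebraicClosure K, (∀ x ∈ M₂, g x = x) →
      ψ₁ g = 1 → g s = s := hgen s hs
  have haM₂ : ((α : M₂) : AlgebraicClosure K) ≠ 0 := fun h => α.ne_zero (Subtype.ext h)
  have hs0 : s ≠ 0 := by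
    intro h0
    rw [h0, zero_pow hp.ne_zero] at hs
    exact haM₂ hs.symm
  have hεΩ : IsPrimitiveRoot ((ε : M₂) : AlgebraicClosure K) p :=
    hε.map_of_injective (f := algebraMap M₂ (AlgebraicClosure K)) (RingHom.injective _)
  obtain ⟨gK, hgM₂, hgs⟩ := exists_gK (K := K) hp hεΩ ε.2 (α : M₂).2 haM₂ hs hsM₂
  have hψp : ∀ g : AlgebraicClosure K ≃ₐ[K] AlgebraicClosure K, (∀ x ∈ J, g x = x) →
      ψ₁ g ^ p = 1 := fun g hg => (hcJ g).2 hg
  -- the field of `ψ₁`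
  have hint : IsIntegral K s := Algebra.IsIntegral.isIntegral s
  have hfs : FiniteDimensional K (IntermediateField.adjoin K {s}) :=
    IntermediateField.adjoin.finiteDimensional hint
  obtain ⟨F, hfF, hF⟩ := exists_cutsOut ψ₁ (M₂ ⊔ IntermediateField.adjoin K {s}) (by
    intro g hg
    refine triv_of_fix hp ψ₁ hεΩ ε.2 hs0 (fun g hg => hψp g fun x hx => hg x (hJM₂ hx)) hgen'
      hgM₂ hgs g (fun x hx => hg x ((le_sup_left : M₂ ≤ M₂ ⊔ IntermediateField.adjoin K {s}) hx))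
      (hg s ((le_sup_right : IntermediateField.adjoin K {s} ≤
        M₂ ⊔ IntermediateField.adjoin K {s}) ?_))
    exact IntermediateField.mem_adjoin_simple_self K s)
  have hgF : IsGalois K F := isGalois_of_cutsOut hF
  have hnfF : NumberField F := NumberField.of_module_finite K F
  have hJF : J ≤ F := fun x hx => Pool.Agent.Helper79.RD.mem_of_fixed fun g hg =>
    (hcJ g).1 (by
      rw [MonoidHom.pow_apply, (hF g).2 hg, one_pow]) x hx
  obtain ⟨n, hn⟩ := hJ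
  have hdF : finrank K F = p ^ (n + 1) := by
    have e := finrank_sup_cut hp hn ψ₁ hF hψp hgE
    rwa [sup_eq_right.2 hJF] at e
  obtain ⟨χF, hχF, hχF'⟩ := exists_faithful hF
  have hcyc : IsCyclic (F ≃ₐ[K] F) := by
    have hinj : Function.Injective ((Units.coeHom ℂ_[p]).comp χF) :=
      Units.val_injective.comp hχF
    exact isCyclic_of_subgroup_isDomain _ hinj
  -- the characters
  have hψF : ∀ g : AlgebraicClosure K ≃ₐ[K] AlgebraicClosure K, (∀ x ∈ F, g x = x) → ψ₁ g = 1 :=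
    fun g hg => (hF g).2 hg
  obtain ⟨H, fH, hH⟩ := exists_cutsOut (χ₀ * ψ₁) (M ⊔ F) (by
    intro g hg
    have a1 : χ₀ g = 1 := by
      rw [hχ₀ g, Pool.Agent.Helper13.RL.res_one_iff.2 fun x hx ↦
        hg x ((le_sup_left : M ≤ M ⊔ F) hx), map_one]
    have a2 : ψ₁ g = 1 := hψF g fun x hx ↦ hg x ((le_sup_right : F ≤ M ⊔ F) hx)
    rw [MonoidHom.mul_apply, a1, a2, one_mul])
  have jH := isGalois_of_cutsOut hH
  obtain ⟨χ', hinj, hχ'⟩ := exists_faithful hH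
  have r : ∀ (g : AlgebraicClosure K ≃ₐ[K] AlgebraicClosure K)
      (X : IntermediateField K (AlgebraicClosure K)) [IsGalois K X],
      Restricts (algebraMap X (AlgebraicClosure K)) g (AlgEquiv.restrictNormalHom X g) :=
    fun g X _ x ↦ (AlgEquiv.restrictNormal_commutes g X x).symm
  refine ⟨H, fH, hH, χ', hχ', ?_⟩
  refine hco p hp2 K ιinf ιp Lg S hcl M χM hχM hcop δ i hδ hδi n J F M₂ hMM₂ hcyc hJF hn hdF hM₂
    ε (α : M₂) hε hε₀ hOm α.ne_zero s hs hsM₂ (fun g g1 g2 => hgen' g g2 (hψF g g1)) hSel H χ' χF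
    hinj ?_ ?_
  · obtain ⟨g, hg, hg1⟩ := hgE
    refine ⟨AlgEquiv.restrictNormalHom F g, fun x hx ↦ ?_, ?_⟩
    · apply Subtype.ext
      rw [AlgEquiv.restrictNormalHom_apply]
      exact hg _ hx
    · rw [← hχF' g _ (r g F)]
      exact hg1
  · intro g
    rw [← hχ' g _ (r g H), ← hχF' g _ (r g F), ← hχ₀ g, MonoidHom.mul_apply]

end Pool.Agent.Helper74.WY
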